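import Pool.Agent.MP_86e332_an.Main

set_option autoImplicit false

/-!
# Every bounded `ℂ`-convex domain is exhausted by `ℂ`-convex compact sets
-/

namespace Pool.Agent.Results.MP_86e332_an.CConvexExhaustion

open Pool.Agent.MP_86e332_an

/-- Every bounded `ℂ`-convex domain `D` of `ℂⁿ` is the union of an increasing sequence of
`ℂ`-convex compact sets, each contained in the interior of the next one. -/
theorem result (n : ℕ) (D : Set (Fin n → ℂ)) (hD : IsCConvexDomain D)
    (hb : Bornology.IsBounded D) :
    ∃ K : ℕ → Set (Fin n → ℂ), (∀ j, IsCConvexCompact (K j)) ∧ Monotone K ∧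
      (∀ j, K j ⊆ interior (K (j + 1))) ∧ ⋃ j, K j = D :=
  main D hD hb

end Pool.Agent.Results.MP_86e332_an.CConvexExhaustion
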